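import Pool.Agent.H261R3.LN.Stmts

set_option autoImplicit false

open scoped NNReal

namespace Pool.Agent.H261R3.LN.CellN768

open Pool.Agent.H261R3.LH (Lip1 IsLNR clip clip_nonneg)
open Pool.Agent.H261R3.LN

theorem clip_lip (x y : ℝ) : |clip x - clip y| ≤ |x - y| := by
  unfold clip
  have h1 : |max 0 (min 1 x) - max 0 (min 1 y)| ≤ |min 1 x - min 1 y| := by
    have := abs_max_sub_max_le_max (0:ℝ) (min 1 x) 0 (min 1 y)
    simpa using this
  have h2 : |min 1 x - min 1 y| ≤ |x - y| := by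
    have := abs_min_sub_min_le_max (1:ℝ) x 1 y
    simpa using this
  exact h1.trans h2

theorem clip_of {x : ℝ} (h0 : 0 ≤ x) (h1 : x ≤ 1) : clip x = x := by
  unfold clip
  rw [min_eq_right h1, max_eq_right h0]

theorem ext_pt {m : ℕ} {a b : Hyp m} (h1 : a.x = b.x) (h2 : a.y = b.y) : a = b := by
  cases a
  cases b
  simp only at h1 h2
  subst h1
  subst h2
  rfl

theorem one_add_sq_le_cosh {a : ℝ} (ha : 0 ≤ a) : 1 + a ^ 2 / 2 ≤ Real.cosh a := by
  have h1 : Real.cosh a = Real.cosh (2 * (a / 2)) := by congr 1; ring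
  rw [h1, Real.cosh_two_mul, Real.cosh_sq]
  have h2 : a / 2 ≤ Real.sinh (a / 2) := Real.self_le_sinh_iff.2 (by positivity)
  have h3 : (a / 2) ^ 2 ≤ Real.sinh (a / 2) ^ 2 := by
    gcongr
  linarith

theorem hdist_le {m : ℕ} (z w : Hyp m) {a : ℝ} (ha : 0 ≤ a)
    (h : ‖z.x - w.x‖ ^ 2 + (z.y - w.y) ^ 2 ≤ a ^ 2 * (z.y * w.y)) : hdist z w ≤ a := by
  have hz := z.pos
  have hw := w.pos
  have hzw : 0 < z.y * w.y := by positivity
  unfold hdist
  have h1 : 1 + (‖z.x - w.x‖ ^ 2 + (z.y - w.y) ^ 2) / (2 * z.y * w.y) ≤ Real.cosh a := by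
    refine le_trans ?_ (one_add_sq_le_cosh ha)
    have h2 : (‖z.x - w.x‖ ^ 2 + (z.y - w.y) ^ 2) / (2 * z.y * w.y) ≤ a ^ 2 / 2 := by
      rw [div_le_div_iff₀ (by positivity) (by norm_num)]
      linarith
    linarith
  have h3 : 0 ≤ (‖z.x - w.x‖ ^ 2 + (z.y - w.y) ^ 2) / (2 * z.y * w.y) := by positivity
  have h4 := (Real.arcosh_le_arcosh (by linarith) (Real.cosh_pos a)).2 h1
  rwa [Real.arcosh_cosh ha] at h4

theorem x_cellPtN {m : ℕ} (j : ℤ) (k : Fin m → ℤ) (s : Fin m → ℝ) (h : ℝ) :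
    (cellPtN j k s h).x = WithLp.toLp 2 (fun i => 2 ^ j * (k i + s i)) := rfl

theorem y_cellPtN {m : ℕ} (j : ℤ) (k : Fin m → ℤ) (s : Fin m → ℝ) (h : ℝ) :
    (cellPtN j k s h).y = 2 ^ j * (1 + clip h) := rfl

theorem taskCellN : TaskCellN := by
  intro m
  refine ⟨m + 1, by positivity, fun S _ F hF => ⟨⟨?_, ?_, ?_, ?_⟩, ?_⟩⟩
  · intro j k h x y
    refine (hF _ _).trans ?_
    have hD : 0 ≤ dist x y := dist_nonneg
    have hj : (0 : ℝ) < 2 ^ j := by positivity
    have hc := clip_nonneg h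
    refine hdist_le _ _ (by positivity) ?_
    rw [y_cellPtN, y_cellPtN, x_cellPtN, x_cellPtN, sub_self, EuclideanSpace.real_norm_sq_eq]
    have h1 : ∀ i : Fin m, ((WithLp.toLp 2 (fun i => 2 ^ j * ((k i : ℝ) + x i)) -
        WithLp.toLp 2 (fun i => 2 ^ j * ((k i : ℝ) + y i)) : EuclideanSpace ℝ (Fin m)) i) ^ 2 ≤
        (2 ^ j) ^ 2 * dist x y ^ 2 := by
      intro i
      have h2 : ((WithLp.toLp 2 (fun i => 2 ^ j * ((k i : ℝ) + x i)) -
        WithLp.toLp 2 (fun i => 2 ^ j * ((k i : ℝ) + y i)) : EuclideanSpace ℝ (Fin m)) i) =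
          2 ^ j * (x i - y i) := by
        show 2 ^ j * ((k i : ℝ) + x i) - 2 ^ j * ((k i : ℝ) + y i) = _
        ring
      rw [h2, mul_pow]
      have h3 : |x i - y i| ≤ dist x y := dist_le_pi_dist x y i
      have h4 : (x i - y i) ^ 2 ≤ dist x y ^ 2 := by
        rw [← sq_abs (x i - y i)]
        gcongr
      gcongr
    have h5 := Finset.sum_le_card_nsmul Finset.univ _ _ (fun i _ => h1 i)
    rw [Finset.card_univ, Fintype.card_fin, nsmul_eq_mul] at h5
    have h6 : (2 : ℝ) ^ j * 2 ^ j ≤ 2 ^ j * (1 + clip h) * (2 ^ j * (1 + clip h)) := by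
      have : (2 : ℝ) ^ j ≤ 2 ^ j * (1 + clip h) := by nlinarith
      gcongr
    have h7 : (m : ℝ) ≤ ((m : ℝ) + 1) ^ 2 := by
      have : (0 : ℝ) ≤ m := by positivity
      nlinarith
    calc _ ≤ (m : ℝ) * ((2 ^ j) ^ 2 * dist x y ^ 2) + 0 ^ 2 := by gcongr
      _ = (m : ℝ) * dist x y ^ 2 * (2 ^ j * 2 ^ j) := by ring
      _ ≤ ((m : ℝ) + 1) ^ 2 * dist x y ^ 2 *
          (2 ^ j * (1 + clip h) * (2 ^ j * (1 + clip h))) := by gcongr
      _ = _ := by ring
  · intro j k s x y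
    refine (hF _ _).trans ?_
    have hj : (0 : ℝ) < 2 ^ j := by positivity
    have hcx := clip_nonneg x
    have hcy := clip_nonneg y
    have h0 : |x - y| ≤ ((m : ℝ) + 1) * |x - y| := by
      have h1 : (0 : ℝ) ≤ m := by positivity
      have h2 := abs_nonneg (x - y)
      nlinarith
    refine le_trans ?_ h0
    refine hdist_le _ _ (abs_nonneg _) ?_
    rw [y_cellPtN, y_cellPtN, x_cellPtN, x_cellPtN, sub_self, norm_zero]
    have h3 : (clip x - clip y) ^ 2 ≤ |x - y| ^ 2 := by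
      rw [← sq_abs (clip x - clip y)]
      exact pow_le_pow_left₀ (abs_nonneg _) (clip_lip x y) 2
    have h4 : (2 : ℝ) ^ j * 2 ^ j ≤ 2 ^ j * (1 + clip x) * (2 ^ j * (1 + clip y)) := by
      have h5 : (2 : ℝ) ^ j ≤ 2 ^ j * (1 + clip x) := by nlinarith
      have h6 : (2 : ℝ) ^ j ≤ 2 ^ j * (1 + clip y) := by nlinarith
      gcongr
    calc (0 : ℝ) ^ 2 + (2 ^ j * (1 + clip x) - 2 ^ j * (1 + clip y)) ^ 2
        = (clip x - clip y) ^ 2 * (2 ^ j * 2 ^ j) := by ring
      _ ≤ |x - y| ^ 2 * (2 ^ j * (1 + clip x) * (2 ^ j * (1 + clip y))) := by gcongr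
  · intro j k s h i _ hi
    have : cellPtN j k s h =
        cellPtN j (Function.update k i (k i + 1)) (Function.update s i 0) h := by
      apply ext_pt
      · rw [x_cellPtN, x_cellPtN]
        congr 1
        funext l
        by_cases hl : l = i
        · subst hl
          rw [Function.update_self, Function.update_self, hi]
          push_cast
          ring
        · rw [Function.update_of_ne hl, Function.update_of_ne hl]
      · rfl
    show F _ = F _
    rw [this]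
  · intro j k b _ s _
    have : cellPtN j (fun i => 2 * k i + b i) s 1 =
        cellPtN (j + 1) k (fun i => (b i + s i) / 2) 0 := by
      apply ext_pt
      · rw [x_cellPtN, x_cellPtN]
        congr 1
        funext l
        rw [zpow_add₀ two_ne_zero, zpow_one]
        push_cast
        ring
      · rw [y_cellPtN, y_cellPtN, clip_of zero_le_one le_rfl, clip_of le_rfl zero_le_one,
          zpow_add₀ two_ne_zero, zpow_one]
        ring
    show F _ = F _
    rw [this]
  · intro z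
    have h0 : (0 : ℝ) < 2 ^ (Int.log 2 z.y) := by positivity
    have h1 : (2 : ℝ) ^ (Int.log 2 z.y) ≤ z.y := by
      have := Int.zpow_log_le_self (b := 2) (r := z.y) one_lt_two z.pos
      exact_mod_cast this
    have h2 : z.y < (2 : ℝ) ^ (Int.log 2 z.y + 1) := by
      have := Int.lt_zpow_succ_log_self (R := ℝ) (b := 2) one_lt_two z.y
      exact_mod_cast this
    rw [zpow_add₀ two_ne_zero, zpow_one] at h2
    have h3 : 0 ≤ z.y / 2 ^ (Int.log 2 z.y) - 1 := by
      rw [sub_nonneg, le_div_iff₀ h0, one_mul]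
      exact h1
    have h4 : z.y / 2 ^ (Int.log 2 z.y) - 1 ≤ 1 := by
      rw [sub_le_iff_le_add, div_le_iff₀ h0]
      linarith
    have : cellPtN (Int.log 2 z.y) (fun i => ⌊z.x i / 2 ^ (Int.log 2 z.y)⌋)
        (fun i => Int.fract (z.x i / 2 ^ (Int.log 2 z.y))) (z.y / 2 ^ (Int.log 2 z.y) - 1)
        = z := by
      apply ext_pt
      · rw [x_cellPtN]
        ext i
        show 2 ^ (Int.log 2 z.y) * ((⌊z.x i / 2 ^ (Int.log 2 z.y)⌋ : ℝ) +
          Int.fract (z.x i / 2 ^ (Int.log 2 z.y))) = z.x i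
        rw [Int.floor_add_fract]
        field_simp
      · rw [y_cellPtN, clip_of h3 h4]
        field_simp
        ring
    unfold asmN
    show F _ = F _
    rw [this]

end Pool.Agent.H261R3.LN.CellN768
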